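import Mathlib

/-!
# Minimal subshifts in abelian closures

If a uniformly recurrent, aperiodic, non-Sturmian binary word has an irrational letter frequency,
then its abelian closure contains uncountably many minimal subshifts.
-/

set_option autoImplicit false

open Filter Topology Set

namespace Pool.Agent.Results.MP_fa9958_co.UncountablyMany

/-! ### Definitions -/

/-- The factor `x_i x_{i+1} ⋯ x_{i+n-1}` of the infinite binary word `x`. -/
def fac (x : ℕ → Bool) (i n : ℕ) : Fin n → Bool := fun k => x (i + k)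

/-- The number of letters `1` of a finite binary word. -/
def ones {n : ℕ} (v : Fin n → Bool) : ℕ := (Finset.univ.filter fun k => v k = true).card

/-- The set of factors of length `n` of `x`. -/
def Lang (x : ℕ → Bool) (n : ℕ) : Set (Fin n → Bool) := Set.range fun i => fac x i n

/-- Every factor of `x` occurs with bounded gaps. -/
def UniformlyRecurrent (x : ℕ → Bool) : Prop :=
  ∀ i n : ℕ, ∃ R : ℕ, ∀ t : ℕ, ∃ j : ℕ, t ≤ j ∧ j ≤ t + R ∧ fac x j n = fac x i n

/-- `x` is not ultimately periodic. -/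
def Aperiodic (x : ℕ → Bool) : Prop :=
  ¬ ∃ p N : ℕ, 0 < p ∧ ∀ m : ℕ, N ≤ m → x (m + p) = x m

/-- `x` is aperiodic and has exactly `n + 1` factors of each length `n`. -/
def Sturmian (x : ℕ → Bool) : Prop := Aperiodic x ∧ ∀ n : ℕ, (Lang x n).ncard = n + 1

/-- The abelian closure: every factor of `y` is abelian equivalent to some factor of `x`. -/
def AbClosure (x : ℕ → Bool) : Set (ℕ → Bool) :=
  {y | ∀ i n : ℕ, ∃ j : ℕ, ones (fac y i n) = ones (fac x j n)}

/-- `x` has uniform letter frequency `α`. -/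
def HasUniformFreq (x : ℕ → Bool) (α : ℝ) : Prop :=
  ∀ ε > 0, ∃ N : ℕ, ∀ n ≥ N, ∀ i, |((ones (fac x i n) : ℕ) : ℝ) / n - α| < ε

/-- `x` has letter frequency `α`. -/
def HasFreq (x : ℕ → Bool) (α : ℝ) : Prop :=
  Tendsto (fun n : ℕ => ((ones (fac x 0 n) : ℕ) : ℝ) / n) atTop (𝓝 α)

/-- The shift. -/
def shift (x : ℕ → Bool) : ℕ → Bool := fun j => x (j + 1)

/-- `M` is a minimal subshift of `{0,1}^ℕ` (with the product topology). -/
structure IsMinimalSubshift (M : Set (ℕ → Bool)) : Prop where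
  nonempty : M.Nonempty
  isClosed : IsClosed M
  shift_mem : ∀ z ∈ M, shift z ∈ M
  minimal : ∀ N ⊆ M, N.Nonempty → IsClosed N → (∀ z ∈ N, shift z ∈ N) → N = M

/-! ### Prefix sums -/

/-- prefix sums -/
def S (y : ℕ → Bool) (j : ℕ) : ℤ := ∑ k ∈ Finset.range j, if y k = true then 1 else 0

lemma S_succ (y : ℕ → Bool) (j : ℕ) : S y (j + 1) = S y j + if y j = true then 1 else 0 := by
  unfold S; rw [Finset.sum_range_succ]

lemma ones_eq_sum (y : ℕ → Bool) (i n : ℕ) :
    ones (fac y i n) = ∑ k ∈ Finset.range n, if y (i + k) = true then 1 else 0 := by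
  unfold ones fac
  rw [Finset.card_filter, Finset.sum_range]

lemma S_win (y : ℕ → Bool) (i n : ℕ) : ((ones (fac y i n) : ℕ) : ℤ) = S y (i + n) - S y i := by
  rw [ones_eq_sum]
  induction n with
  | zero => simp
  | succ n ih =>
    rw [Finset.sum_range_succ, Nat.cast_add, ih, ← add_assoc, S_succ]
    push_cast
    ring

lemma S_win' (y : ℕ → Bool) (i n : ℕ) :
    ((ones (fac y i n) : ℕ) : ℝ) = (S y (i + n) : ℝ) - S y i := by
  have := S_win y i n
  exact_mod_cast congrArg (fun z : ℤ => (z : ℝ)) this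

lemma S_zero (y : ℕ → Bool) : S y 0 = 0 := rfl

lemma fac_eq_iff (x y : ℕ → Bool) (i j n : ℕ) :
    fac x i n = fac y j n ↔ ∀ k < n, x (i + k) = y (j + k) := by
  constructor
  · intro h k hk
    exact congrFun h ⟨k, hk⟩
  · intro h
    funext k
    exact h k k.2

lemma fac_sub {x y : ℕ → Bool} {i j n : ℕ} (h : fac x i n = fac y j n) {a b : ℕ}
    (hab : a + b ≤ n) : fac x (i + a) b = fac y (j + a) b := by
  rw [fac_eq_iff] at h ⊢
  intro k hk
  rw [add_assoc, add_assoc]
  exact h (a + k) (by omega)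

lemma S_diff_eq {x y : ℕ → Bool} {i j n : ℕ} (h : fac x i n = fac y j n) {a b : ℕ}
    (hab : a + b ≤ n) : S x (i + a + b) - S x (i + a) = S y (j + a + b) - S y (j + a) := by
  rw [← S_win, ← S_win, fac_sub h hab]

/-! ### Complexity and balance -/

lemma lang_finite (x : ℕ → Bool) (n : ℕ) : (Lang x n).Finite := Set.toFinite _

lemma init_image (x : ℕ → Bool) (n : ℕ) :
    (fun w : Fin (n + 1) → Bool => fun k : Fin n => w k.castSucc) '' Lang x (n + 1) =
      Lang x n := by
  ext w
  constructor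
  · rintro ⟨_, ⟨i, rfl⟩, rfl⟩
    exact ⟨i, by funext k; simp [fac]⟩
  · rintro ⟨i, rfl⟩
    exact ⟨_, ⟨i, rfl⟩, by funext k; simp [fac]⟩

lemma lang_lt (x : ℕ → Bool) (hx : Aperiodic x) (n : ℕ) :
    (Lang x n).ncard < (Lang x (n + 1)).ncard := by
  by_contra hcon
  rw [not_lt] at hcon
  have h1 : ((fun w : Fin (n + 1) → Bool => fun k : Fin n => w k.castSucc) '' Lang x (n + 1)).ncard
      ≤ (Lang x (n + 1)).ncard := Set.ncard_image_le (lang_finite x _)
  rw [init_image] at h1
  have h2 : (Lang x n).ncard = (Lang x (n + 1)).ncard := le_antisymm h1 hcon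
  have h3 : InjOn (fun w : Fin (n + 1) → Bool => fun k : Fin n => w k.castSucc)
      (Lang x (n + 1)) := by
    rw [← Set.ncard_image_iff (lang_finite x _), init_image, h2]
  have h4 : ∀ i j, fac x i n = fac x j n → x (i + n) = x (j + n) := by
    intro i j hij
    have h5 : fac x i (n + 1) = fac x j (n + 1) := by
      refine h3 ⟨i, rfl⟩ ⟨j, rfl⟩ ?_
      funext k
      have := congrFun hij k
      simpa [fac] using this
    have := congrFun h5 (Fin.last n)
    simpa [fac] using this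
  obtain ⟨i, j, hne, hij⟩ := Finite.exists_ne_map_eq_of_infinite fun i => fac x i n
  wlog hlt : i < j generalizing i j with H
  · exact H j i hne.symm hij.symm (by omega)
  refine hx ⟨j - i, i + n, by omega, ?_⟩
  have h6 : ∀ d, fac x (i + d) n = fac x (j + d) n := by
    intro d
    induction d with
    | zero => simpa using hij
    | succ d ih =>
      have h7 := h4 _ _ ih
      rw [fac_eq_iff] at ih ⊢
      intro k hk
      rcases Nat.lt_or_ge (k + 1) n with hk' | hk'
      · have := ih (k + 1) hk'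
        rw [show i + (d + 1) + k = i + d + (k + 1) by ring,
          show j + (d + 1) + k = j + d + (k + 1) by ring]
        exact this
      · have hkn : k + 1 = n := by omega
        rw [show i + (d + 1) + k = i + d + n by omega,
          show j + (d + 1) + k = j + d + n by omega]
        exact h7
  intro m hm
  have h8 := h4 _ _ (h6 (m - (i + n)))
  rw [show i + (m - (i + n)) + n = m by omega,
    show j + (m - (i + n)) + n = m + (j - i) by omega] at h8
  exact h8.symm

lemma lang_ge (x : ℕ → Bool) (hx : Aperiodic x) (n : ℕ) : n + 1 ≤ (Lang x n).ncard := by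
  induction n with
  | zero =>
    have h1 : (Lang x 0).Nonempty := ⟨_, ⟨0, rfl⟩⟩
    have := (Set.ncard_pos (lang_finite x 0)).2 h1
    omega
  | succ n ih =>
    have := lang_lt x hx n
    omega

/-- balanced words have at most one right special factor of each length -/
lemma special_unique (x : ℕ → Bool)
    (hb : ∀ i j n, ones (fac x i n) ≤ ones (fac x j n) + 1) (n : ℕ) (u v : Fin n → Bool)
    {i i' j j' : ℕ} (hi : fac x i n = u) (hi' : fac x i' n = u) (hj : fac x j n = v)
    (hj' : fac x j' n = v) (h0 : x (i + n) = false) (h1 : x (i' + n) = true)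
    (h2 : x (j + n) = false) (h3 : x (j' + n) = true) : u = v := by
  by_contra hne
  have hex : ∃ k : Fin n, u k ≠ v k := by
    by_contra hcon
    push Not at hcon
    exact hne (funext hcon)
  -- the last position where they differ
  obtain ⟨k, hk, hmax⟩ := (Finset.univ.filter fun k : Fin n => u k ≠ v k).exists_max_image
    (fun k => (k : ℕ)) (by
      obtain ⟨k, hk⟩ := hex
      exact ⟨k, by simpa using hk⟩)
  have hk' : u k ≠ v k := by simpa using hk
  have hagree : ∀ l : Fin n, (k : ℕ) < l → u l = v l := by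
    intro l hl
    by_contra hcon
    have := hmax l (by simpa using hcon)
    omega
  have key : ∀ a b : ℕ, (∀ l : Fin n, (k : ℕ) < l → x (a + l) = x (b + l)) →
      x (a + k) = false → x (b + k) = true → x (a + n) = false → x (b + n) = true → False := by
    intro a b hab ha hb1 ha2 hb2
    have e1 := hb (b + k) (a + k) (n + 1 - k)
    have hkn := k.2
    obtain ⟨m, hm⟩ : ∃ m, n = k + m + 1 := ⟨n - k - 1, by omega⟩
    have e2 : n + 1 - (k : ℕ) = m + 1 + 1 := by omega
    have w1 := S_win x (b + k) (n + 1 - k)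
    have w2 := S_win x (a + k) (n + 1 - k)
    have w3 : fac x (a + k + 1) m = fac x (b + k + 1) m := by
      rw [fac_eq_iff]
      intro l hl
      have := hab ⟨k + 1 + l, by omega⟩ (by simp; omega)
      simp only at this
      rw [show a + (k : ℕ) + 1 + l = a + (k + 1 + l) by ring,
        show b + (k : ℕ) + 1 + l = b + (k + 1 + l) by ring]
      exact this
    have w4 := S_win x (a + k + 1) m
    have w5 := S_win x (b + k + 1) m
    rw [w3] at w4
    have s1 := S_succ x (a + k)
    have s2 := S_succ x (b + k)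
    have s3 := S_succ x (a + n)
    have s4 := S_succ x (b + n)
    rw [ha] at s1
    rw [hb1] at s2
    rw [ha2] at s3
    rw [hb2] at s4
    rw [show b + (k : ℕ) + (n + 1 - k) = b + n + 1 by omega] at w1
    rw [show a + (k : ℕ) + (n + 1 - k) = a + n + 1 by omega] at w2
    rw [show a + (k : ℕ) + 1 + m = a + n by omega] at w4
    rw [show b + (k : ℕ) + 1 + m = b + n by omega] at w5
    simp only [Bool.false_eq_true, if_true, if_false] at s1 s2 s3 s4
    omega
  rcases Bool.eq_false_or_eq_true (u k) with hu | hu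
  · have hv : v k = false := by
      cases hvk : v k
      · rfl
      · exact absurd (hu.trans hvk.symm) hk'
    refine key j i' (fun l hl => ?_) ?_ ?_ h2 h1
    · have a1 := congrFun hj l
      have a2 := congrFun hi' l
      have a3 := hagree l hl
      simp only [fac] at a1 a2
      rw [a1, a2, a3]
    · have a1 := congrFun hj k
      simp only [fac] at a1
      rw [a1, hv]
    · have a1 := congrFun hi' k
      simp only [fac] at a1
      rw [a1, hu]
  · have hv : v k = true := by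
      cases hvk : v k
      · exact absurd (hu.trans hvk.symm) hk'
      · rfl
    refine key i j' (fun l hl => ?_) ?_ ?_ h0 h3
    · have a1 := congrFun hi l
      have a2 := congrFun hj' l
      have a3 := hagree l hl
      simp only [fac] at a1 a2
      rw [a1, a2, a3]
    · have a1 := congrFun hi k
      simp only [fac] at a1
      rw [a1, hu]
    · have a1 := congrFun hj' k
      simp only [fac] at a1
      rw [a1, hv]

lemma lang_le_succ (x : ℕ → Bool)
    (hb : ∀ i j n, ones (fac x i n) ≤ ones (fac x j n) + 1) (n : ℕ) :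
    (Lang x (n + 1)).ncard ≤ (Lang x n).ncard + 1 := by
  classical
  let r : (Fin (n + 1) → Bool) → (Fin n → Bool) := fun w k => w k.castSucc
  -- two factors with the same image under `r` differ in the last letter
  have hr : ∀ i j, fac x i n = fac x j n → x (i + n) = x (j + n) →
      fac x i (n + 1) = fac x j (n + 1) := by
    intro i j h1 h2
    rw [fac_eq_iff] at h1 ⊢
    intro k hk
    rcases Nat.lt_or_ge k n with hk' | hk'
    · exact h1 k hk'
    · obtain rfl : k = n := by omega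
      exact h2
  have hr' : ∀ i, r (fac x i (n + 1)) = fac x i n := by
    intro i
    funext k
    simp [r, fac]
  by_cases hsp : ∃ i j, fac x i n = fac x j n ∧ x (i + n) = false ∧ x (j + n) = true
  · obtain ⟨i, j, hij, hi, hj⟩ := hsp
    have hinj : InjOn r (Lang x (n + 1) \ {fac x i (n + 1)}) := by
      rintro _ ⟨⟨a, rfl⟩, ha⟩ _ ⟨⟨b, rfl⟩, hb'⟩ hab
      simp only [mem_singleton_iff] at ha hb'
      rw [hr', hr'] at hab
      by_contra hne
      have hne' : x (a + n) ≠ x (b + n) := fun h => hne (hr a b hab h)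
      rcases Bool.eq_false_or_eq_true (x (a + n)) with h | h
      · have h' : x (b + n) = false := by
          cases hvk : x (b + n)
          · rfl
          · exact absurd (h.trans hvk.symm) hne'
        have h4 := special_unique x hb n (fac x i n) (fac x a n) rfl hij.symm hab.symm rfl
          hi hj h' h
        exact hb' (hr b i (hab.symm.trans h4.symm) (h'.trans hi.symm))
      · have h' : x (b + n) = true := by
          cases hvk : x (b + n)
          · exact absurd (h.trans hvk.symm) hne'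
          · rfl
        have h4 := special_unique x hb n (fac x i n) (fac x a n) rfl hij.symm rfl hab.symm
          hi hj h h'
        exact ha (hr a i h4.symm (h.trans hi.symm))
    have h5 : (Lang x (n + 1) \ {fac x i (n + 1)}).ncard ≤ (Lang x n).ncard := by
      rw [← hinj.ncard_image]
      refine Set.ncard_le_ncard ?_ (lang_finite x n)
      rintro _ ⟨_, ⟨⟨a, rfl⟩, -⟩, rfl⟩
      rw [hr']
      exact ⟨a, rfl⟩
    have h6 : fac x i (n + 1) ∈ Lang x (n + 1) := ⟨i, rfl⟩
    have := Set.ncard_sdiff_singleton_add_one h6 (lang_finite x _)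
    omega
  · push Not at hsp
    have hinj : InjOn r (Lang x (n + 1)) := by
      rintro _ ⟨a, rfl⟩ _ ⟨b, rfl⟩ hab
      rw [hr', hr'] at hab
      refine hr a b hab ?_
      rcases Bool.eq_false_or_eq_true (x (a + n)) with h | h
      · by_contra hne
        have h' : x (b + n) = false := by
          cases hvk : x (b + n)
          · rfl
          · exact absurd (h.trans hvk.symm) hne
        exact hsp b a hab.symm h' h
      · have := hsp a b hab h
        rw [h]
        cases hvk : x (b + n)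
        · rfl
        · exact absurd hvk this
    have h5 : (Lang x (n + 1)).ncard ≤ (Lang x n).ncard := by
      rw [← hinj.ncard_image]
      refine Set.ncard_le_ncard ?_ (lang_finite x n)
      rintro _ ⟨_, ⟨a, rfl⟩, rfl⟩
      rw [hr']
      exact ⟨a, rfl⟩
    omega

/-- An aperiodic word which is not Sturmian is not balanced. -/
lemma not_balanced (x : ℕ → Bool) (hx : Aperiodic x) (hs : ¬ Sturmian x) :
    ∃ i j n, ones (fac x j n) + 2 ≤ ones (fac x i n) := by
  by_contra hcon
  push Not at hcon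
  refine hs ⟨hx, fun n => le_antisymm ?_ (lang_ge x hx n)⟩
  induction n with
  | zero =>
    have : (Lang x 0).ncard ≤ 1 := by
      rw [Set.ncard_le_one_iff_subsingleton]
      intro a _ b _
      exact Subsingleton.elim a b
    exact this
  | succ n ih =>
    have := lang_le_succ x (fun i j n => by have := hcon i j n; omega) n
    omega

/-! ### Words with given prefix sums in the abelian closure -/

/-- the discrepancy of the prefix of length `j` -/
noncomputable def ph (x : ℕ → Bool) (α : ℝ) (j : ℕ) : ℝ := (S x j : ℝ) - j * α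

lemma ph_win (x : ℕ → Bool) (α : ℝ) (i n : ℕ) :
    ph x α (i + n) - ph x α i = ((ones (fac x i n) : ℕ) : ℝ) - n * α := by
  rw [S_win']
  unfold ph
  push_cast
  ring

/-- a discrete intermediate value theorem -/
lemma ivt_up (f : ℕ → ℤ) (hf : ∀ j, f (j + 1) ≤ f j + 1) (k : ℤ) (a d : ℕ) (h1 : f a ≤ k)
    (h2 : k ≤ f (a + d)) : ∃ j, f j = k := by
  induction d with
  | zero => exact ⟨a, le_antisymm h1 h2⟩
  | succ d ih =>
    rcases le_or_gt k (f (a + d)) with h | h
    · exact ih h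
    · have := hf (a + d)
      rw [← add_assoc] at h2
      exact ⟨a + d + 1, by omega⟩

lemma ivt (f : ℕ → ℤ) (hf : ∀ j, |f (j + 1) - f j| ≤ 1) (k : ℤ) (a b : ℕ) (h1 : f a ≤ k)
    (h2 : k ≤ f b) : ∃ j, f j = k := by
  rcases le_total a b with h | h
  · obtain ⟨d, rfl⟩ := Nat.exists_eq_add_of_le h
    refine ivt_up f (fun j => ?_) k a d h1 h2
    have := abs_le.1 (hf j)
    omega
  · obtain ⟨d, rfl⟩ := Nat.exists_eq_add_of_le h
    obtain ⟨j, hj⟩ := ivt_up (fun j => -f j) (fun j => by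
      have := abs_le.1 (hf j)
      omega) (-k) b d (by omega) (by omega)
    exact ⟨j, by omega⟩

lemma exists_window (x : ℕ → Bool) (n : ℕ) (k : ℤ) (a b : ℕ)
    (h1 : S x (a + n) - S x a ≤ k) (h2 : k ≤ S x (b + n) - S x b) :
    ∃ j, S x (j + n) - S x j = k := by
  refine ivt (fun j => S x (j + n) - S x j) (fun j => ?_) k a b h1 h2
  have e1 := S_succ x j
  have e2 := S_succ x (j + n)
  rw [show j + 1 + n = j + n + 1 by ring, e1, e2, abs_le]
  split_ifs <;> constructor <;> omega

lemma S_mul_ge (x : ℕ → Bool) (n : ℕ) (m : ℤ) (h : ∀ i, m ≤ S x (i + n) - S x i) (k : ℕ) :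
    k * m ≤ S x (k * n) := by
  induction k with
  | zero => simp [S_zero]
  | succ k ih =>
    have := h (k * n)
    rw [show (k + 1) * n = k * n + n by ring]
    push_cast
    linarith

lemma S_mul_le (x : ℕ → Bool) (n : ℕ) (m : ℤ) (h : ∀ i, S x (i + n) - S x i ≤ m) (k : ℕ) :
    S x (k * n) ≤ k * m := by
  induction k with
  | zero => simp [S_zero]
  | succ k ih =>
    have := h (k * n)
    rw [show (k + 1) * n = k * n + n by ring]
    push_cast
    linarith

lemma freq_sub {x : ℕ → Bool} {α : ℝ} (hf : HasFreq x α) {n : ℕ} (hn : 0 < n) :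
    Tendsto (fun k : ℕ => (S x (k * n) : ℝ) / (k * n)) atTop (𝓝 α) := by
  have h1 : Tendsto (fun k : ℕ => k * n) atTop atTop :=
    tendsto_id.atTop_mul_const' hn
  have h2 := hf.comp h1
  refine h2.congr fun k => ?_
  simp only [Function.comp]
  rw [S_win', Nat.zero_add, S_zero]
  push_cast
  simp

lemma exists_low {x : ℕ → Bool} {α : ℝ} (hf : HasFreq x α) {n : ℕ} (hn : 0 < n) :
    ∃ i, S x (i + n) - S x i ≤ ⌊(n : ℝ) * α⌋ := by
  by_contra hcon
  push Not at hcon
  have h1 := S_mul_ge x n (⌊(n : ℝ) * α⌋ + 1) (fun i => by have := hcon i; omega)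
  have hn' : (0 : ℝ) < n := by exact_mod_cast hn
  have h2 : ((⌊(n : ℝ) * α⌋ : ℝ) + 1) / n ≤ α := by
    refine ge_of_tendsto (freq_sub hf hn) ?_
    filter_upwards [eventually_gt_atTop 0] with k hk
    have hk' : (0 : ℝ) < k := by exact_mod_cast hk
    rw [div_le_div_iff₀ hn' (by positivity)]
    have h3 : ((k : ℝ)) * ((⌊(n : ℝ) * α⌋ : ℝ) + 1) ≤ S x (k * n) := by exact_mod_cast h1 k
    nlinarith
  rw [div_le_iff₀ hn'] at h2
  have h3 := Int.lt_floor_add_one ((n : ℝ) * α)
  linarith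

lemma exists_high {x : ℕ → Bool} {α : ℝ} (hα : Irrational α) (hf : HasFreq x α) {n : ℕ}
    (hn : 0 < n) : ∃ i, ⌊(n : ℝ) * α⌋ + 1 ≤ S x (i + n) - S x i := by
  by_contra hcon
  push Not at hcon
  have h1 := S_mul_le x n ⌊(n : ℝ) * α⌋ (fun i => by have := hcon i; omega)
  have hn' : (0 : ℝ) < n := by exact_mod_cast hn
  have h2 : α ≤ (⌊(n : ℝ) * α⌋ : ℝ) / n := by
    refine le_of_tendsto (freq_sub hf hn) ?_
    filter_upwards [eventually_gt_atTop 0] with k hk
    have hk' : (0 : ℝ) < k := by exact_mod_cast hk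
    rw [div_le_div_iff₀ (by positivity) hn']
    have h3 : (S x (k * n) : ℝ) ≤ ((k : ℝ)) * (⌊(n : ℝ) * α⌋ : ℝ) := by exact_mod_cast h1 k
    nlinarith
  rw [le_div_iff₀ hn'] at h2
  have h3 := Int.floor_le ((n : ℝ) * α)
  have h4 : (n : ℝ) * α = ((⌊(n : ℝ) * α⌋ : ℤ) : ℝ) := by linarith
  have h5 : Irrational ((n : ℝ) * α) := hα.natCast_mul hn.ne'
  exact h5.ne_int _ h4

lemma alpha_mem {x : ℕ → Bool} {α : ℝ} (hα : Irrational α) (hf : HasFreq x α) :
    0 < α ∧ α < 1 := by
  have h0 : 0 ≤ α := ge_of_tendsto hf (Eventually.of_forall fun n => by positivity)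
  have h1 : α ≤ 1 := by
    refine le_of_tendsto hf (Eventually.of_forall fun n => ?_)
    refine div_le_one_of_le₀ ?_ (Nat.cast_nonneg n)
    have : ones (fac x 0 n) ≤ n := by
      unfold ones
      refine (Finset.card_filter_le _ _).trans ?_
      simp
    exact_mod_cast this
  refine ⟨lt_of_le_of_ne h0 fun h => hα.ne_zero h.symm, lt_of_le_of_ne h1 fun h => hα.ne_one h⟩

/-- the word with prefix sums `T` -/
def wd (T : ℕ → ℤ) (j : ℕ) : Bool := decide (T (j + 1) = T j + 1)

/-- the bounds which put a word into the abelian closure -/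
def Good (x : ℕ → Bool) (α : ℝ) (T : ℕ → ℤ) : Prop :=
  ∀ i n : ℕ, 0 < n → min ⌊(n : ℝ) * α⌋ (S x (i + n) - S x i) ≤ T (i + n) - T i ∧
    T (i + n) - T i ≤ max (⌊(n : ℝ) * α⌋ + 1) (S x (i + n) - S x i)

lemma S_wd {x : ℕ → Bool} {α : ℝ} (hα : Irrational α) (hf : HasFreq x α) {T : ℕ → ℤ}
    (hT : Good x α T) (i n : ℕ) : S (wd T) (i + n) - S (wd T) i = T (i + n) - T i := by
  have hα' := alpha_mem hα hf
  have hfl : ⌊((1 : ℕ) : ℝ) * α⌋ = 0 := by
    rw [Nat.cast_one, one_mul, Int.floor_eq_zero_iff]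
    exact ⟨hα'.1.le, hα'.2⟩
  induction n with
  | zero => simp
  | succ n ih =>
    have h1 := S_succ (wd T) (i + n)
    have h2 := hT (i + n) 1 one_pos
    rw [hfl] at h2
    have h3 := S_succ x (i + n)
    have h4 : T (i + n + 1) = T (i + n) ∨ T (i + n + 1) = T (i + n) + 1 := by
      have h5 : S x (i + n + 1) - S x (i + n) = 0 ∨ S x (i + n + 1) - S x (i + n) = 1 := by
        rw [h3]
        split_ifs
        · right; ring
        · left; ring
      rcases h5 with h5 | h5 <;> rw [h5] at h2 <;> simp at h2 <;> omega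
    have h6 : (wd T (i + n) = true) ↔ T (i + n + 1) = T (i + n) + 1 := by
      simp [wd]
    rw [← add_assoc, h1]
    rcases h4 with h4 | h4
    · have h7 : ¬ (wd T (i + n) = true) := by rw [h6]; omega
      rw [if_neg h7]
      omega
    · rw [if_pos (h6.2 h4)]
      omega

lemma wd_mem {x : ℕ → Bool} {α : ℝ} (hα : Irrational α) (hf : HasFreq x α) {T : ℕ → ℤ}
    (hT : Good x α T) : wd T ∈ AbClosure x := by
  intro i n
  rcases Nat.eq_zero_or_pos n with rfl | hn
  · exact ⟨0, by simp [ones]⟩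
  obtain ⟨a, ha⟩ := exists_low hf hn
  obtain ⟨b, hb⟩ := exists_high hα hf hn
  have h1 := hT i n hn
  have h2 := S_wd hα hf hT i n
  obtain ⟨j, hj⟩ : ∃ j, S x (j + n) - S x j = T (i + n) - T i := by
    rcases le_total ⌊(n : ℝ) * α⌋ (S x (i + n) - S x i) with h3 | h3
    · rw [min_eq_left h3] at h1
      rcases le_total (⌊(n : ℝ) * α⌋ + 1) (S x (i + n) - S x i) with h4 | h4
      · rw [max_eq_right h4] at h1
        exact exists_window x n _ a i (by omega) (by omega)
      · rw [max_eq_left h4] at h1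
        exact exists_window x n _ a b (by omega) (by omega)
    · rw [min_eq_right h3] at h1
      rcases le_total (⌊(n : ℝ) * α⌋ + 1) (S x (i + n) - S x i) with h4 | h4
      · omega
      · rw [max_eq_left h4] at h1
        exact exists_window x n _ i b (by omega) (by omega)
  refine ⟨j, ?_⟩
  have h3 := S_win (wd T) i n
  have h4 := S_win x j n
  omega

/-! ### Orbit closures and minimal subshifts -/

/-- the orbit closure of `y` -/
def Om (y : ℕ → Bool) : Set (ℕ → Bool) := {z | ∀ n, ∃ l, fac z 0 n = fac y l n}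

lemma om_fac {y z : ℕ → Bool} (hz : z ∈ Om y) (i n : ℕ) : ∃ l, fac z i n = fac y (l + i) n := by
  obtain ⟨l, hl⟩ := hz (i + n)
  have := fac_sub hl (a := i) (b := n) le_rfl
  rw [Nat.zero_add] at this
  exact ⟨l, this⟩

lemma self_mem_om (y : ℕ → Bool) : y ∈ Om y := fun _ => ⟨0, rfl⟩

lemma continuous_fac (i n : ℕ) : Continuous fun z : ℕ → Bool => fac z i n :=
  continuous_pi fun _ => continuous_apply _

lemma om_closed (y : ℕ → Bool) : IsClosed (Om y) := by
  have h : Om y = ⋂ n : ℕ, (fun z : ℕ → Bool => fac z 0 n) ⁻¹' Lang y n := by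
    ext z
    simp only [Om, mem_ofPred_eq, mem_iInter, mem_preimage, Lang, mem_range]
    exact forall_congr' fun n => exists_congr fun l => eq_comm
  rw [h]
  exact isClosed_iInter fun n => (isClosed_discrete _).preimage (continuous_fac 0 n)

lemma om_shift {y z : ℕ → Bool} (hz : z ∈ Om y) : shift z ∈ Om y := by
  intro n
  obtain ⟨l, hl⟩ := om_fac hz 1 n
  refine ⟨l + 1, ?_⟩
  rw [← hl]
  rw [fac_eq_iff]
  intro k _
  simp [shift, add_comm]

lemma om_subset {x y : ℕ → Bool} (hy : y ∈ AbClosure x) : Om y ⊆ AbClosure x := by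
  intro z hz i n
  obtain ⟨l, hl⟩ := om_fac hz i n
  rw [hl]
  exact hy _ _

lemma iter_mem {N : Set (ℕ → Bool)} (hN : ∀ z ∈ N, shift z ∈ N) {z : ℕ → Bool} (hz : z ∈ N)
    (d : ℕ) : (fun j => z (j + d)) ∈ N := by
  induction d with
  | zero => exact hz
  | succ d ih =>
    have := hN _ ih
    convert this using 1
    funext j
    simp [shift]
    ring_nf

lemma mem_of_approx {N : Set (ℕ → Bool)} (hN : IsClosed N) {u : ℕ → Bool}
    (h : ∀ n, ∃ v ∈ N, fac v 0 n = fac u 0 n) : u ∈ N := by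
  choose v hv hvu using h
  refine hN.mem_of_tendsto (f := v) (b := atTop) ?_ (Eventually.of_forall hv)
  rw [tendsto_pi_nhds]
  intro k
  refine tendsto_const_nhds.congr' ?_
  filter_upwards [eventually_gt_atTop k] with n hn
  have := (fac_eq_iff (v n) u 0 0 n).1 (hvu n) k hn
  simpa using this.symm

lemma om_minimal {y : ℕ → Bool} (hy : UniformlyRecurrent y) : IsMinimalSubshift (Om y) := by
  refine ⟨⟨y, self_mem_om y⟩, om_closed y, fun z hz => om_shift hz, ?_⟩
  intro N hNO ⟨z, hz⟩ hN hNs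
  refine Subset.antisymm hNO fun u hu => mem_of_approx hN fun n => ?_
  obtain ⟨l, hl⟩ := hu n
  obtain ⟨R, hR⟩ := hy l n
  obtain ⟨t, ht⟩ := hNO hz (R + n)
  obtain ⟨j, hj1, hj2, hj3⟩ := hR t
  refine ⟨fun k => z (k + (j - t)), iter_mem hNs hz (j - t), ?_⟩
  rw [hl, ← hj3]
  have h1 := fac_sub ht (a := j - t) (b := n) (by omega)
  rw [show t + (j - t) = j by omega] at h1
  rw [← h1, fac_eq_iff]
  intro k _
  simp [add_comm]

lemma exists_minimal {X : Set (ℕ → Bool)} (hX : X.Nonempty) (hXc : IsClosed X)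
    (hXs : ∀ z ∈ X, shift z ∈ X) : ∃ M ⊆ X, IsMinimalSubshift M := by
  obtain ⟨M, hMX, hM⟩ := zorn_superset_nonempty
    {N : Set (ℕ → Bool) | N.Nonempty ∧ IsClosed N ∧ ∀ z ∈ N, shift z ∈ N} (by
      intro c hc hchain hne
      refine ⟨⋂₀ c, ⟨?_, isClosed_sInter fun N hN => (hc hN).2.1, ?_⟩,
        fun s hs => sInter_subset_of_mem hs⟩
      · have : Nonempty c := hne.to_subtype
        refine IsCompact.nonempty_sInter_of_directed_nonempty_isCompact_isClosed ?_
          (fun N hN => (hc hN).1) (fun N hN => (hc hN).2.1.isCompact) (fun N hN => (hc hN).2.1)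
        intro A hA B hB
        rcases hchain.total hA hB with h | h
        · exact ⟨A, hA, subset_refl _, h⟩
        · exact ⟨B, hB, h, subset_refl _⟩
      · intro z hz N hN
        exact (hc hN).2.2 z (hz N hN)) X ⟨hX, hXc, hXs⟩
  refine ⟨M, hMX, hM.prop.1, hM.prop.2.1, hM.prop.2.2, ?_⟩
  intro N hNM hN1 hN2 hN3
  exact Subset.antisymm hNM (hM.le_of_le ⟨hN1, hN2, hN3⟩ hNM)

/-! ### Bounded discrepancy -/

lemma exists_osc {x : ℕ → Bool} {α : ℝ} (hα : Irrational α) {i j n : ℕ}
    (h : ones (fac x j n) + 2 ≤ ones (fac x i n)) : ∃ p q, 1 < ph x α p - ph x α q := by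
  have e1 := ph_win x α i n
  have e2 := ph_win x α j n
  have hR : ((ones (fac x j n) : ℕ) : ℝ) + 2 ≤ ((ones (fac x i n) : ℕ) : ℝ) := by exact_mod_cast h
  by_cases h1 : 1 < ph x α (i + n) - ph x α i
  · exact ⟨_, _, h1⟩
  · rw [not_lt] at h1
    have hn : 0 < n := by
      rcases Nat.eq_zero_or_pos n with rfl | hn
      · simp [ones] at h
      · exact hn
    refine ⟨j, j + n, lt_of_le_of_ne (by linarith) fun h2 => ?_⟩
    have h5 : Irrational ((n : ℝ) * α) := hα.natCast_mul hn.ne'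
    refine h5.ne_int (((ones (fac x j n) : ℕ) : ℤ) + 1) ?_
    push_cast
    linarith

lemma gh {x : ℕ → Bool} {α : ℝ} (hu : UniformlyRecurrent x) {I J : ℝ}
    (hI : ∀ j, I ≤ ph x α j) (hJ : ∀ j, ph x α j ≤ J) (hI' : ∀ ε > 0, ∃ j, ph x α j < I + ε)
    (hJ' : ∀ ε > 0, ∃ j, J - ε < ph x α j) {δ : ℝ} (hδ : 0 < δ) :
    ∃ m, ∀ i j, fac x i m = fac x j m → |ph x α i - ph x α j| < δ := by
  obtain ⟨i₁, hi₁⟩ := hJ' (δ / 4) (by positivity)
  obtain ⟨i₀, hi₀⟩ := hI' (δ / 4) (by positivity)
  have hwin : ∀ {a b n : ℕ}, fac x a n = fac x b n →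
      ph x α (a + n) - ph x α a = ph x α (b + n) - ph x α b := by
    intro a b n h
    rw [ph_win, ph_win, h]
  rcases le_total i₀ i₁ with h | h
  · obtain ⟨R, hR⟩ := hu i₀ (i₁ - i₀)
    refine ⟨R + (i₁ - i₀), fun i j hij => ?_⟩
    obtain ⟨r, hr1, hr2, hr3⟩ := hR i
    have h1 : fac x (i + (r - i)) (i₁ - i₀) = fac x (j + (r - i)) (i₁ - i₀) :=
      fac_sub hij (by omega)
    rw [show i + (r - i) = r by omega] at h1
    have h2 := hwin hr3
    have h3 := hwin (h1.symm.trans hr3)
    rw [show i₀ + (i₁ - i₀) = i₁ by omega] at h2 h3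
    have h4 : fac x (i + 0) (r - i) = fac x (j + 0) (r - i) := fac_sub hij (by omega)
    have h5 := hwin h4
    simp only [add_zero] at h5
    rw [show i + (r - i) = r by omega] at h5
    have a1 := hJ (r + (i₁ - i₀))
    have a2 := hI r
    have a3 := hJ (j + (r - i) + (i₁ - i₀))
    have a4 := hI (j + (r - i))
    rw [abs_lt]
    constructor <;> linarith
  · obtain ⟨R, hR⟩ := hu i₁ (i₀ - i₁)
    refine ⟨R + (i₀ - i₁), fun i j hij => ?_⟩
    obtain ⟨r, hr1, hr2, hr3⟩ := hR i
    have h1 : fac x (i + (r - i)) (i₀ - i₁) = fac x (j + (r - i)) (i₀ - i₁) :=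
      fac_sub hij (by omega)
    rw [show i + (r - i) = r by omega] at h1
    have h2 := hwin hr3
    have h3 := hwin (h1.symm.trans hr3)
    rw [show i₁ + (i₀ - i₁) = i₀ by omega] at h2 h3
    have h4 : fac x (i + 0) (r - i) = fac x (j + 0) (r - i) := fac_sub hij (by omega)
    have h5 := hwin h4
    simp only [add_zero] at h5
    rw [show i + (r - i) = r by omega] at h5
    have a1 := hI (r + (i₀ - i₁))
    have a2 := hJ r
    have a3 := hI (j + (r - i) + (i₀ - i₁))
    have a4 := hJ (j + (r - i))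
    rw [abs_lt]
    constructor <;> linarith

/-- lower the prefix sums by one where the discrepancy exceeds `c` -/
noncomputable def Tc (x : ℕ → Bool) (α c : ℝ) (j : ℕ) : ℤ :=
  S x j - if c < ph x α j then 1 else 0

lemma ph_diff (x : ℕ → Bool) (α : ℝ) (i n : ℕ) :
    ph x α (i + n) - ph x α i = ((S x (i + n) - S x i : ℤ) : ℝ) - n * α := by
  unfold ph
  push_cast
  ring

lemma Tc_good (x : ℕ → Bool) (α c : ℝ) : Good x α (Tc x α c) := by
  intro i n hn
  have e := ph_diff x α i n
  unfold Tc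
  by_cases h1 : c < ph x α (i + n) <;> by_cases h2 : c < ph x α i
  · rw [if_pos h1, if_pos h2]
    constructor
    · exact (min_le_right _ _).trans (by omega)
    · exact le_trans (by omega) (le_max_right _ _)
  · rw [if_pos h1, if_neg h2]
    have h3 : (n : ℝ) * α < ((S x (i + n) - S x i : ℤ) : ℝ) := by
      rw [not_lt] at h2
      linarith
    have h4 := Int.floor_lt.2 h3
    constructor
    · exact (min_le_left _ _).trans (by omega)
    · exact le_trans (by omega) (le_max_right _ _)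
  · rw [if_neg h1, if_pos h2]
    have h3 : ((S x (i + n) - S x i : ℤ) : ℝ) ≤ (n : ℝ) * α := by
      rw [not_lt] at h1
      linarith
    have h4 := Int.le_floor.2 h3
    constructor
    · exact (min_le_right _ _).trans (by omega)
    · exact le_trans (by omega) (le_max_left _ _)
  · rw [if_neg h1, if_neg h2]
    constructor
    · exact (min_le_right _ _).trans (by omega)
    · exact le_trans (by omega) (le_max_right _ _)

/-- the discrepancy of the modified word -/
noncomputable def pc (x : ℕ → Bool) (α c : ℝ) (j : ℕ) : ℝ :=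
  ph x α j - if c < ph x α j then 1 else 0

lemma wc_win {x : ℕ → Bool} {α : ℝ} (hα : Irrational α) (hf : HasFreq x α) (c : ℝ) (i n : ℕ) :
    ((ones (fac (wd (Tc x α c)) i n) : ℕ) : ℝ) - n * α = pc x α c (i + n) - pc x α c i := by
  have h1 := S_wd hα hf (Tc_good x α c) i n
  have h2 := S_win (wd (Tc x α c)) i n
  have h3 : ((ones (fac (wd (Tc x α c)) i n) : ℕ) : ℝ) =
      ((Tc x α c (i + n) - Tc x α c i : ℤ) : ℝ) := by
    rw [← h1, ← h2]
    push_cast
    rfl
  rw [h3]
  unfold Tc pc ph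
  push_cast
  ring

lemma exists_min (f : ℕ → ℝ) (hf : ∀ k, 0 < f k) (n : ℕ) : ∃ δ > 0, ∀ k ≤ n, δ ≤ f k := by
  induction n with
  | zero => exact ⟨f 0, hf 0, fun k hk => by rw [Nat.le_zero.1 hk]⟩
  | succ n ih =>
    obtain ⟨δ, hδ, h⟩ := ih
    refine ⟨min δ (f (n + 1)), lt_min hδ (hf _), fun k hk => ?_⟩
    rcases Nat.lt_or_ge n k with h1 | h1
    · obtain rfl : k = n + 1 := by omega
      exact min_le_right _ _
    · exact (min_le_left _ _).trans (h k h1)

lemma wc_ur {x : ℕ → Bool} {α : ℝ} (hu : UniformlyRecurrent x) {I J : ℝ}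
    (hI : ∀ j, I ≤ ph x α j) (hJ : ∀ j, ph x α j ≤ J) (hI' : ∀ ε > 0, ∃ j, ph x α j < I + ε)
    (hJ' : ∀ ε > 0, ∃ j, J - ε < ph x α j) {c : ℝ} (hc : c ∉ range (ph x α)) :
    UniformlyRecurrent (wd (Tc x α c)) := by
  intro i n
  obtain ⟨δ, hδ, hmin⟩ := exists_min (fun k => |ph x α (i + k) - c|) (fun k => by
    rw [abs_pos, sub_ne_zero]
    exact fun h => hc ⟨_, h⟩) n
  obtain ⟨m, hm⟩ := gh hu hI hJ hI' hJ' hδ
  obtain ⟨R, hR⟩ := hu i (max m (n + 1))
  refine ⟨R, fun t => ?_⟩
  obtain ⟨j, hj1, hj2, hj3⟩ := hR t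
  refine ⟨j, hj1, hj2, ?_⟩
  have h1 : |ph x α j - ph x α i| < δ := by
    refine hm _ _ ?_
    have := fac_sub hj3 (a := 0) (b := m) (by simp)
    simpa using this
  have h2 : ∀ k ≤ n, ph x α (j + k) - ph x α j = ph x α (i + k) - ph x α i := by
    intro k hk
    have := fac_sub hj3 (a := 0) (b := k) (by
      have := le_max_right m (n + 1)
      omega)
    simp only [add_zero] at this
    rw [ph_win, ph_win, this]
  have h3 : ∀ k ≤ n, (c < ph x α (j + k) ↔ c < ph x α (i + k)) := by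
    intro k hk
    have e1 := h2 k hk
    have e2 := hmin k hk
    rw [abs_lt] at h1
    rw [le_abs] at e2
    constructor
    · intro h4
      rcases e2 with e2 | e2 <;> linarith
    · intro h4
      rcases e2 with e2 | e2 <;> linarith
  have h4 : ∀ k ≤ n, S x (j + k) - S x j = S x (i + k) - S x i := by
    intro k hk
    have := S_diff_eq hj3 (a := 0) (b := k) (by
      have := le_max_right m (n + 1)
      omega)
    simpa using this
  rw [fac_eq_iff]
  intro k hk
  have e1 := h3 k hk.le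
  have e2 := h3 (k + 1) hk
  have e3 := h4 k hk.le
  have e4 := h4 (k + 1) hk
  rw [← add_assoc, ← add_assoc] at e2 e4
  have e5 : Tc x α c (j + k + 1) = Tc x α c (j + k) + 1 ↔
      Tc x α c (i + k + 1) = Tc x α c (i + k) + 1 := by
    unfold Tc
    simp only [e1, e2]
    constructor <;> intro h <;> omega
  unfold wd
  exact decide_eq_decide.2 e5

lemma om_ne {x : ℕ → Bool} {α : ℝ} (hα : Irrational α) (hf : HasFreq x α) {I J : ℝ}
    (hI : ∀ j, I ≤ ph x α j) (hJ : ∀ j, ph x α j ≤ J) (hI' : ∀ ε > 0, ∃ j, ph x α j < I + ε)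
    {c₁ c₂ : ℝ} {j₀ : ℕ} (h1 : I + 1 < c₁) (h1' : J - 1 < c₁) (h2 : c₁ < ph x α j₀)
    (h3 : ph x α j₀ < c₂) : Om (wd (Tc x α c₁)) ≠ Om (wd (Tc x α c₂)) := by
  intro heq
  have hb : ∀ j, I ≤ pc x α c₁ j ∧ pc x α c₁ j ≤ c₁ := by
    intro j
    have a1 := hI j
    have a2 := hJ j
    unfold pc
    split_ifs with h
    · constructor <;> linarith
    · rw [not_lt] at h
      constructor <;> linarith
  have hw : ∀ i n, |((ones (fac (wd (Tc x α c₁)) i n) : ℕ) : ℝ) - n * α| ≤ c₁ - I := by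
    intro i n
    rw [wc_win hα hf]
    have a1 := hb (i + n)
    have a2 := hb i
    rw [abs_le]
    constructor <;> linarith
  obtain ⟨q, hq⟩ := hI' (ph x α j₀ - c₁) (by linarith)
  have hpq : pc x α c₂ q = ph x α q := by
    unfold pc
    rw [if_neg (by linarith), sub_zero]
  have hpj : pc x α c₂ j₀ = ph x α j₀ := by
    unfold pc
    rw [if_neg (by linarith), sub_zero]
  have hself : wd (Tc x α c₂) ∈ Om (wd (Tc x α c₁)) := by
    rw [heq]
    exact self_mem_om _
  have hw2 : ∀ i n, |((ones (fac (wd (Tc x α c₂)) i n) : ℕ) : ℝ) - n * α| ≤ c₁ - I := by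
    intro i n
    obtain ⟨l, hl⟩ := om_fac hself i n
    rw [hl]
    exact hw _ _
  rcases le_total q j₀ with h | h
  · have := hw2 q (j₀ - q)
    rw [wc_win hα hf, show q + (j₀ - q) = j₀ by omega, hpq, hpj] at this
    have := le_of_abs_le this
    linarith
  · have := hw2 j₀ (q - j₀)
    rw [wc_win hα hf, show j₀ + (q - j₀) = q by omega, hpq, hpj, abs_sub_comm] at this
    have := le_of_abs_le this
    linarith

lemma not_countable_circle : ¬ (univ : Set UnitAddCircle).Countable := by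
  intro h
  have hinj : InjOn (fun r : ℝ => (r : UnitAddCircle)) (Ico (0 : ℝ) 1) := by
    intro a ha b hb hab
    have := (AddCircle.coe_eq_coe_iff_of_mem_Ico (p := (1 : ℝ)) (a := 0) (by simpa using ha)
      (by simpa using hb)).1 hab
    exact this
  have h1 : (Ico (0 : ℝ) 1).Countable :=
    countable_of_injective_of_countable_image hinj (h.mono (subset_univ _))
  have h2 := h1.measure_zero MeasureTheory.volume
  simp at h2

lemma Z_uncountable {x : ℕ → Bool} {α : ℝ} (hα : Irrational α) (hu : UniformlyRecurrent x)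
    {I J : ℝ} (hI : ∀ j, I ≤ ph x α j) (hJ : ∀ j, ph x α j ≤ J)
    (hI' : ∀ ε > 0, ∃ j, ph x α j < I + ε) (hJ' : ∀ ε > 0, ∃ j, J - ε < ph x α j)
    (hIJ : 1 < J - I) :
    ¬ {c : ℝ | c ∈ closure (range (ph x α)) ∧ I + 1 < c ∧ J - 1 < c ∧ c < J ∧
      c ∉ range (ph x α)}.Countable := by
  intro hZ
  have ha : max (I + 1) (J - 1) < J := max_lt (by linarith) (by linarith)
  set a := max (I + 1) (J - 1) with hadef
  obtain ⟨j₀, hj₀⟩ := hJ' (J - a) (by linarith)
  have hj₀' : a < ph x α j₀ := by linarith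
  obtain ⟨m, hm⟩ := gh hu hI hJ hI' hJ' (δ := (ph x α j₀ - a) / 2) (by linarith)
  obtain ⟨G, hG⟩ := hu j₀ m
  let A : Set ℕ := {j | fac x j m = fac x j₀ m}
  let K : Set ℝ := closure (ph x α '' A)
  have hK1 : K ⊆ Icc (ph x α j₀ - (ph x α j₀ - a) / 2) J := by
    refine closure_minimal ?_ isClosed_Icc
    rintro _ ⟨j, hj, rfl⟩
    have := abs_lt.1 (hm j j₀ hj)
    exact ⟨by linarith, hJ j⟩
  have hK2 : K ⊆ closure (range (ph x α)) := closure_mono (image_subset_range _ _)
  have hKc : K.Countable := by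
    refine ((hZ.union (countable_singleton J)).union (countable_range (ph x α))).mono ?_
    intro c hc
    by_cases h1 : c ∈ range (ph x α)
    · exact Or.inr h1
    · refine Or.inl ?_
      by_cases h2 : c = J
      · exact Or.inr h2
      · refine Or.inl ⟨hK2 hc, ?_, ?_, lt_of_le_of_ne (hK1 hc).2 h2, h1⟩
        · have := (hK1 hc).1
          have := le_max_left (I + 1) (J - 1)
          linarith
        · have := (hK1 hc).1
          have := le_max_right (I + 1) (J - 1)
          linarith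
  have hKcomp : IsCompact K := isCompact_Icc.of_isClosed_subset isClosed_closure hK1
  let π : ℝ → UnitAddCircle := fun r => (r : UnitAddCircle)
  have hπ : Continuous π := AddCircle.continuous_mk' 1
  let F : Set UnitAddCircle := ⋃ g ∈ Finset.range (G + 1),
    (fun u : UnitAddCircle => g • (α : UnitAddCircle) + u) '' (π '' K)
  have hFc : F.Countable :=
    (Finset.range (G + 1)).countable_toSet.biUnion fun g _ => (hKc.image _).image _
  have hFcomp : IsCompact F := by
    refine (Finset.range (G + 1)).isCompact_biUnion fun g _ => ?_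
    exact (hKcomp.image hπ).image (by fun_prop)
  have hmem : ∀ t : ℕ, t • ((-α : ℝ) : UnitAddCircle) ∈ F := by
    intro t
    obtain ⟨j, hj1, hj2, hj3⟩ := hG t
    refine mem_biUnion (x := j - t) (by simp; omega) ?_
    refine ⟨π (ph x α j), ⟨_, subset_closure ⟨j, hj3, rfl⟩, rfl⟩, ?_⟩
    have h1 : π (ph x α j) = - (j • (α : UnitAddCircle)) := by
      simp only [π]
      unfold ph
      rw [AddCircle.coe_sub]
      have h2 : ((S x j : ℝ) : UnitAddCircle) = 0 := by
        rw [AddCircle.coe_eq_zero_iff]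
        exact ⟨S x j, by simp⟩
      rw [h2, zero_sub, ← nsmul_eq_mul, AddCircle.coe_nsmul]
    simp only
    rw [h1, AddCircle.coe_neg, smul_neg]
    have h3 : j = (j - t) + t := by omega
    conv_lhs => rw [h3]
    rw [add_smul]
    simp
  have hdense : DenseRange (fun t : ℕ => t • ((-α : ℝ) : UnitAddCircle)) := by
    rw [← denseRange_zsmul_iff_nsmul]
    have := (AddCircle.denseRange_zsmul_coe_iff (a := -α) (p := 1)).2 (by simpa using hα.neg)
    exact this
  have hFu : F = univ := by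
    have h1 : closure (range fun t : ℕ => t • ((-α : ℝ) : UnitAddCircle)) ⊆ F :=
      closure_minimal (by rintro _ ⟨t, rfl⟩; exact hmem t) hFcomp.isClosed
    rw [hdense.closure_range] at h1
    exact univ_subset_iff.1 h1
  exact not_countable_circle (hFu ▸ hFc)

theorem bounded_case {x : ℕ → Bool} {α : ℝ} (hα : Irrational α) (hu : UniformlyRecurrent x)
    (hf : HasFreq x α) {I J : ℝ} (hI : ∀ j, I ≤ ph x α j) (hJ : ∀ j, ph x α j ≤ J)
    (hI' : ∀ ε > 0, ∃ j, ph x α j < I + ε) (hJ' : ∀ ε > 0, ∃ j, J - ε < ph x α j)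
    (hIJ : 1 < J - I) :
    ¬ {M : Set (ℕ → Bool) | IsMinimalSubshift M ∧ M ⊆ AbClosure x}.Countable := by
  intro hC
  refine Z_uncountable hα hu hI hJ hI' hJ' hIJ ?_
  set Z := {c : ℝ | c ∈ closure (range (ph x α)) ∧ I + 1 < c ∧ J - 1 < c ∧ c < J ∧
      c ∉ range (ph x α)} with hZ
  let g : ℝ → Set (ℕ → Bool) := fun c => Om (wd (Tc x α c))
  have hg : ∀ c ∈ Z, g c ∈ {M : Set (ℕ → Bool) | IsMinimalSubshift M ∧ M ⊆ AbClosure x} := by
    intro c hc
    exact ⟨om_minimal (wc_ur hu hI hJ hI' hJ' hc.2.2.2.2),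
      om_subset (wd_mem hα hf (Tc_good x α c))⟩
  -- three points of `Z`
  have hne : ∀ c₁ ∈ Z, ∀ c₂ ∈ Z, ∀ c₃ ∈ Z, c₁ < c₂ → c₂ < c₃ → g c₁ ≠ g c₃ := by
    intro c₁ h₁ c₂ h₂ c₃ h₃ h12 h23
    obtain ⟨_, ⟨h4, h5⟩, ⟨j, rfl⟩⟩ := mem_closure_iff.1 h₂.1 (Ioo c₁ c₃) isOpen_Ioo ⟨h12, h23⟩
    exact om_ne hα hf hI hJ hI' h₁.2.1 h₁.2.2.1 h4 h5
  have hfib : ∀ M, {c ∈ Z | g c = M}.Countable := by
    intro M
    rcases eq_empty_or_nonempty {c ∈ Z | g c = M} with h | ⟨c₀, hc₀⟩
    · rw [h]
      exact countable_empty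
    · have h1 : {c ∈ Z | g c = M} ⊆ ({c | (c ∈ Z ∧ g c = M) ∧ c < c₀} ∪ {c₀}) ∪
          {c | (c ∈ Z ∧ g c = M) ∧ c₀ < c} := by
        intro c hc
        rcases lt_trichotomy c c₀ with h | h | h
        · exact Or.inl (Or.inl ⟨hc, h⟩)
        · exact Or.inl (Or.inr h)
        · exact Or.inr ⟨hc, h⟩
      refine Countable.mono h1 ((Countable.union (Subsingleton.countable ?_)
        (countable_singleton _)).union (Subsingleton.countable ?_))
      · intro u hu' v hv
        by_contra huv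
        rcases lt_or_gt_of_ne huv with h | h
        · exact hne u hu'.1.1 v hv.1.1 c₀ hc₀.1 h hv.2 (hu'.1.2.trans hc₀.2.symm)
        · exact hne v hv.1.1 u hu'.1.1 c₀ hc₀.1 h hu'.2 (hv.1.2.trans hc₀.2.symm)
      · intro u hu' v hv
        by_contra huv
        rcases lt_or_gt_of_ne huv with h | h
        · exact hne c₀ hc₀.1 u hu'.1.1 v hv.1.1 hu'.2 h (hc₀.2.trans hv.1.2.symm)
        · exact hne c₀ hc₀.1 v hv.1.1 u hu'.1.1 hv.2 h (hc₀.2.trans hu'.1.2.symm)
  refine (hC.biUnion fun M _ => hfib M).mono ?_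
  intro c hc
  exact mem_biUnion (hg c hc) ⟨hc, rfl⟩

/-! ### Unbounded discrepancy -/

/-- prefix sums interpolating between the word and a Sturmian word -/
noncomputable def Tt (x : ℕ → Bool) (α t : ℝ) (j : ℕ) : ℤ :=
  ⌊(1 - t) * (j * α) + t * S x j⌋

lemma Tt_bounds (x : ℕ → Bool) (α t : ℝ) (i n : ℕ) :
    ⌊(1 - t) * (n * α) + t * ((S x (i + n) - S x i : ℤ) : ℝ)⌋ ≤ Tt x α t (i + n) - Tt x α t i ∧
    Tt x α t (i + n) - Tt x α t i ≤
      ⌈(1 - t) * (n * α) + t * ((S x (i + n) - S x i : ℤ) : ℝ)⌉ := by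
  set θ := (1 - t) * (n * α) + t * ((S x (i + n) - S x i : ℤ) : ℝ) with hθ
  have h1 : (1 - t) * (((i + n : ℕ) : ℝ) * α) + t * S x (i + n) =
      ((1 - t) * (i * α) + t * S x i) + θ := by
    rw [hθ]
    push_cast
    ring
  unfold Tt
  rw [h1]
  constructor
  · have := Int.le_floor_add ((1 - t) * (i * α) + t * S x i) θ
    omega
  · have h2 : ⌊((1 - t) * (i * α) + t * S x i) + θ⌋ ≤
        ⌊((1 - t) * (i * α) + t * S x i) + (⌈θ⌉ : ℝ)⌋ :=
      Int.floor_le_floor (by linarith [Int.le_ceil θ])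
    rw [Int.floor_add_intCast] at h2
    omega

lemma Tt_good (x : ℕ → Bool) (α : ℝ) {t : ℝ} (ht0 : 0 ≤ t) (ht1 : t ≤ 1) :
    Good x α (Tt x α t) := by
  intro i n hn
  obtain ⟨h1, h2⟩ := Tt_bounds x α t i n
  have f1 := Int.floor_le ((n : ℝ) * α)
  have f2 := Int.lt_floor_add_one ((n : ℝ) * α)
  set c := S x (i + n) - S x i with hc
  constructor
  · refine le_trans ?_ h1
    rw [Int.le_floor]
    rcases le_total ⌊(n : ℝ) * α⌋ c with h | h
    · rw [min_eq_left h]
      have h' : (⌊(n : ℝ) * α⌋ : ℝ) ≤ c := by exact_mod_cast h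
      nlinarith
    · rw [min_eq_right h]
      have h' : (c : ℝ) ≤ (⌊(n : ℝ) * α⌋ : ℝ) := by exact_mod_cast h
      nlinarith
  · refine le_trans h2 ?_
    rw [Int.ceil_le]
    rcases le_total (⌊(n : ℝ) * α⌋ + 1) c with h | h
    · rw [max_eq_right h]
      have h' : (⌊(n : ℝ) * α⌋ : ℝ) + 1 ≤ c := by exact_mod_cast h
      nlinarith
    · rw [max_eq_left h]
      have h' : (c : ℝ) ≤ (⌊(n : ℝ) * α⌋ : ℝ) + 1 := by exact_mod_cast h
      push_cast
      nlinarith

lemma wt_win {x : ℕ → Bool} {α : ℝ} (hα : Irrational α) (hf : HasFreq x α) {t : ℝ}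
    (ht0 : 0 ≤ t) (ht1 : t ≤ 1) (i n : ℕ) :
    |(((ones (fac (wd (Tt x α t)) i n) : ℕ) : ℝ) - n * α) -
      t * (((ones (fac x i n) : ℕ) : ℝ) - n * α)| ≤ 1 := by
  have h1 := S_wd hα hf (Tt_good x α ht0 ht1) i n
  have h2 := S_win (wd (Tt x α t)) i n
  have h3 : ((ones (fac (wd (Tt x α t)) i n) : ℕ) : ℝ) =
      ((Tt x α t (i + n) - Tt x α t i : ℤ) : ℝ) := by
    rw [← h1, ← h2]
    push_cast
    rfl
  have h4 : ((ones (fac x i n) : ℕ) : ℝ) = ((S x (i + n) - S x i : ℤ) : ℝ) := by
    rw [← S_win]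
    push_cast
    rfl
  obtain ⟨h5, h6⟩ := Tt_bounds x α t i n
  rw [h3, h4]
  set θ := (1 - t) * (n * α) + t * ((S x (i + n) - S x i : ℤ) : ℝ) with hθ
  have h7 := Int.lt_floor_add_one θ
  have h8 := Int.ceil_lt_add_one θ
  have h9 : (⌊θ⌋ : ℝ) ≤ ((Tt x α t (i + n) - Tt x α t i : ℤ) : ℝ) := by exact_mod_cast h5
  have h10 : ((Tt x α t (i + n) - Tt x α t i : ℤ) : ℝ) ≤ (⌈θ⌉ : ℝ) := by exact_mod_cast h6
  rw [abs_le]
  constructor <;> nlinarith

lemma no_common {x : ℕ → Bool} {α : ℝ} (hα : Irrational α) (hu : UniformlyRecurrent x)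
    (hf : HasFreq x α) (hB : ∀ B : ℝ, ∃ j, B < |ph x α j|) {s t : ℝ} (hs : 0 ≤ s)
    (hst : s < t) (ht : t ≤ 1) {z : ℕ → Bool} (hzs : z ∈ Om (wd (Tt x α s)))
    (hzt : z ∈ Om (wd (Tt x α t))) : False := by
  obtain ⟨n, hn⟩ := hB (2 / (t - s))
  have hts : 0 < t - s := by linarith
  rw [div_lt_iff₀ hts] at hn
  -- a window of `x` of length `n` with the largest discrepancy
  obtain ⟨i₀, hi₀⟩ : ∃ i₀, ∀ i, |((ones (fac x i n) : ℕ) : ℝ) - n * α| ≤
      |((ones (fac x i₀ n) : ℕ) : ℝ) - n * α| := by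
    have hfin : (Lang x n).Finite := lang_finite x n
    obtain ⟨w, ⟨i₀, rfl⟩, hw⟩ := hfin.exists_maximalFor
      (fun w => |((ones w : ℕ) : ℝ) - n * α|) (Lang x n) ⟨_, ⟨0, rfl⟩⟩
    refine ⟨i₀, fun i => ?_⟩
    rcases le_total (|((ones (fac x i n) : ℕ) : ℝ) - n * α|)
      (|((ones (fac x i₀ n) : ℕ) : ℝ) - n * α|) with h | h
    · exact h
    · exact hw ⟨i, rfl⟩ h
  have h0 : |ph x α n| ≤ |((ones (fac x i₀ n) : ℕ) : ℝ) - n * α| := by
    refine le_trans (le_of_eq ?_) (hi₀ 0)
    rw [← ph_win, Nat.zero_add]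
    unfold ph
    simp [S_zero]
  obtain ⟨R, hR⟩ := hu i₀ n
  obtain ⟨l, hl⟩ := hzt (R + n)
  obtain ⟨j, hj1, hj2, hj3⟩ := hR l
  have h1 := fac_sub hl (a := j - l) (b := n) (by omega)
  rw [show l + (j - l) = j by omega, Nat.zero_add] at h1
  have h2 := wt_win hα hf (hs.trans hst.le) ht j n
  rw [← h1, hj3] at h2
  obtain ⟨l', hl'⟩ := om_fac hzs (j - l) n
  have h3 := wt_win hα hf hs (hst.le.trans ht) (l' + (j - l)) n
  rw [← hl'] at h3
  have h4 := hi₀ (l' + (j - l))
  set u := ((ones (fac z (j - l) n) : ℕ) : ℝ) - n * α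
  set v := ((ones (fac x i₀ n) : ℕ) : ℝ) - n * α
  set w := ((ones (fac x (l' + (j - l)) n) : ℕ) : ℝ) - n * α
  have h5 : t * |v| ≤ |u| + 1 := by
    have : |t * v| ≤ |u| + |u - t * v| := by
      have := abs_sub_abs_le_abs_sub (t * v) u
      rw [abs_sub_comm (t * v) u] at this
      linarith
    rw [abs_mul, abs_of_nonneg (hs.trans hst.le)] at this
    linarith
  have h6 : |u| ≤ s * |w| + 1 := by
    have := abs_sub_abs_le_abs_sub u (s * w)
    rw [abs_mul, abs_of_nonneg hs] at this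
    linarith
  have h7 : s * |w| ≤ s * |v| := mul_le_mul_of_nonneg_left h4 hs
  nlinarith

theorem unbounded_case {x : ℕ → Bool} {α : ℝ} (hα : Irrational α) (hu : UniformlyRecurrent x)
    (hf : HasFreq x α) (hB : ∀ B : ℝ, ∃ j, B < |ph x α j|) :
    ¬ {M : Set (ℕ → Bool) | IsMinimalSubshift M ∧ M ⊆ AbClosure x}.Countable := by
  intro hC
  have hM : ∀ t : ℝ, ∃ M ⊆ Om (wd (Tt x α t)), IsMinimalSubshift M := fun t =>
    exists_minimal ⟨_, self_mem_om _⟩ (om_closed _) fun z hz => om_shift hz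
  choose M hM1 hM2 using hM
  have hinj : InjOn M (Ioo (0 : ℝ) 1) := by
    intro s hs t ht hst
    by_contra hne
    rcases lt_or_gt_of_ne hne with h | h
    · obtain ⟨z, hz⟩ := (hM2 s).nonempty
      exact no_common hα hu hf hB hs.1.le h ht.2.le (hM1 s hz) (hM1 t (hst ▸ hz))
    · obtain ⟨z, hz⟩ := (hM2 s).nonempty
      exact no_common hα hu hf hB ht.1.le h hs.2.le (hM1 t (hst ▸ hz)) (hM1 s hz)
  have h1 : (Ioo (0 : ℝ) 1).Countable := by
    refine countable_of_injective_of_countable_image hinj (hC.mono ?_)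
    rintro _ ⟨t, ht, rfl⟩
    exact ⟨hM2 t, (hM1 t).trans (om_subset (wd_mem hα hf (Tt_good x α ht.1.le ht.2.le)))⟩
  have h2 := h1.measure_zero MeasureTheory.volume
  simp at h2

theorem main {x : ℕ → Bool} {α : ℝ} (hu : UniformlyRecurrent x) (hx : Aperiodic x)
    (hs : ¬ Sturmian x) (hα : Irrational α) (hf : HasFreq x α) :
    ¬ {M : Set (ℕ → Bool) | IsMinimalSubshift M ∧ M ⊆ AbClosure x}.Countable := by
  by_cases hB : ∃ B : ℝ, ∀ j, |ph x α j| ≤ B
  · obtain ⟨B, hB⟩ := hB
    have hbb : BddBelow (range (ph x α)) := ⟨-B, by rintro _ ⟨j, rfl⟩; exact (abs_le.1 (hB j)).1⟩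
    have hba : BddAbove (range (ph x α)) := ⟨B, by rintro _ ⟨j, rfl⟩; exact (abs_le.1 (hB j)).2⟩
    have hne : (range (ph x α)).Nonempty := range_nonempty _
    have hI : ∀ j, sInf (range (ph x α)) ≤ ph x α j := fun j => csInf_le hbb ⟨j, rfl⟩
    have hJ : ∀ j, ph x α j ≤ sSup (range (ph x α)) := fun j => le_csSup hba ⟨j, rfl⟩
    obtain ⟨i, j, n, hijn⟩ := not_balanced x hx hs
    obtain ⟨p, q, hpq⟩ := exists_osc hα hijn
    refine bounded_case hα hu hf hI hJ (fun ε hε => ?_) (fun ε hε => ?_) ?_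
    · obtain ⟨_, ⟨j, rfl⟩, hj⟩ := exists_lt_of_csInf_lt hne
        (show sInf (range (ph x α)) < sInf (range (ph x α)) + ε by linarith)
      exact ⟨j, hj⟩
    · obtain ⟨_, ⟨j, rfl⟩, hj⟩ := exists_lt_of_lt_csSup hne
        (show sSup (range (ph x α)) - ε < sSup (range (ph x α)) by linarith)
      exact ⟨j, hj⟩
    · have := hI q
      have := hJ p
      linarith
  · push Not at hB
    exact unbounded_case hα hu hf hB

lemma freq_of_uniform {x : ℕ → Bool} {α : ℝ} (h : HasUniformFreq x α) : HasFreq x α := by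
  unfold HasFreq
  rw [Metric.tendsto_atTop]
  intro ε hε
  obtain ⟨N, hN⟩ := h ε hε
  exact ⟨N, fun n hn => by rw [Real.dist_eq]; exact hN n hn 0⟩

/-- The answer to Q1 is yes. -/
theorem result :
    (∀ (x : ℕ → Bool) (α : ℝ), UniformlyRecurrent x → Aperiodic x → ¬ Sturmian x →
      HasUniformFreq x α → Irrational α →
      ¬ {M : Set (ℕ → Bool) | IsMinimalSubshift M ∧ M ⊆ AbClosure x}.Countable) ∧
    (∀ (x : ℕ → Bool) (α : ℝ), UniformlyRecurrent x → Aperiodic x → ¬ Sturmian x →
      HasFreq x α → Irrational α →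
      ¬ {M : Set (ℕ → Bool) | IsMinimalSubshift M ∧ M ⊆ AbClosure x}.Countable) :=
  ⟨fun _ _ hu hx hs hf hα => main hu hx hs hα (freq_of_uniform hf),
    fun _ _ hu hx hs hf hα => main hu hx hs hα hf⟩

end Pool.Agent.Results.MP_fa9958_co.UncountablyMany
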